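import Mathlib

open Complex Filter Topology Set

namespace H370.DG

/-- general term of the series for log Gamma -/
noncomputable def gg (n : ℕ) (s : ℂ) : ℂ :=
  s * (Real.log ((n + 2 : ℝ) / (n + 1)) : ℂ) + (Real.log (n + 2 : ℝ) : ℂ) - log (s + (n + 2))

/-- derivative of the general term -/
noncomputable def gd (n : ℕ) (s : ℂ) : ℂ :=
  (Real.log ((n + 2 : ℝ) / (n + 1)) : ℂ) - 1 / (s + (n + 2))

lemma hasDerivAt_gg (n : ℕ) {s : ℂ} (hs : -1 < s.re) : HasDerivAt (gg n) (gd n s) s := by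
  have h1 : (s + ((n : ℂ) + 2)) ∈ slitPlane := by
    left
    simp only [add_re, natCast_re, re_ofNat]
    have : (0 : ℝ) ≤ n := Nat.cast_nonneg n
    linarith
  have h2 : HasDerivAt (fun z : ℂ => log (z + ((n : ℂ) + 2))) (1 / (s + ((n : ℂ) + 2))) s :=
    HasDerivAt.clog ((hasDerivAt_id s).add_const _) h1
  have h3 : HasDerivAt (fun z : ℂ => z * (Real.log ((n + 2 : ℝ) / (n + 1)) : ℂ))
      (Real.log ((n + 2 : ℝ) / (n + 1)) : ℂ) s := by
    simpa using (hasDerivAt_id s).mul_const (Real.log ((n + 2 : ℝ) / (n + 1)) : ℂ)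
  exact (h3.add_const _).sub h2

lemma log_ratio_bounds (n : ℕ) :
    |Real.log ((n + 2 : ℝ) / (n + 1)) - 1 / (n + 2)| ≤ 1 / ((n + 1) * (n + 2)) := by
  have hn : (0 : ℝ) ≤ n := Nat.cast_nonneg n
  have h1 : Real.log ((n + 2 : ℝ) / (n + 1)) ≤ 1 / (n + 1) := by
    have := Real.log_le_sub_one_of_pos (show (0 : ℝ) < (n + 2 : ℝ) / (n + 1) by positivity)
    refine this.trans (le_of_eq ?_)
    field_simp
    ring
  have h2 : 1 / (n + 2 : ℝ) ≤ Real.log ((n + 2 : ℝ) / (n + 1)) := by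
    have := Real.one_sub_inv_le_log_of_pos (show (0 : ℝ) < (n + 2 : ℝ) / (n + 1) by positivity)
    refine le_trans (le_of_eq ?_) this
    field_simp
    ring
  rw [abs_of_nonneg (by linarith)]
  have h3 : 1 / (n + 1 : ℝ) - 1 / (n + 2) = 1 / ((n + 1) * (n + 2)) := by
    field_simp
    ring
  linarith

lemma norm_gd_le (n : ℕ) {s : ℂ} {R : ℝ} (hs : -1 < s.re) (hR : ‖s‖ ≤ R) :
    ‖gd n s‖ ≤ (1 + R) / ((n : ℝ) + 1) ^ 2 := by
  have hn : (0 : ℝ) ≤ n := Nat.cast_nonneg n
  have hR0 : 0 ≤ R := (norm_nonneg _).trans hR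
  have hre : (n : ℝ) + 1 ≤ ‖s + ((n : ℂ) + 2)‖ := by
    refine le_trans ?_ (re_le_norm _)
    simp only [add_re, natCast_re, re_ofNat]
    linarith
  have hne : s + ((n : ℂ) + 2) ≠ 0 := by
    intro h
    rw [h] at hre
    simp at hre
    linarith
  have hne2 : ((n : ℂ) + 2) ≠ 0 := by
    have : ((n : ℂ) + 2) = ((n + 2 : ℝ) : ℂ) := by push_cast; ring
    rw [this]
    exact_mod_cast (by positivity : (n + 2 : ℝ) ≠ 0)
  have e1 : gd n s = ((Real.log ((n + 2 : ℝ) / (n + 1)) - 1 / (n + 2) : ℝ) : ℂ) +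
      s / ((n + 2) * (s + (n + 2))) := by
    unfold gd
    push_cast
    field_simp
    ring
  rw [e1]
  have hn2 : ‖((n : ℂ) + 2)‖ = n + 2 := by
    have : ((n : ℂ) + 2) = ((n + 2 : ℝ) : ℂ) := by push_cast; ring
    rw [this, Complex.norm_real, Real.norm_eq_abs, abs_of_nonneg (by positivity)]
  have h1 : ‖((Real.log ((n + 2 : ℝ) / (n + 1)) - 1 / (n + 2) : ℝ) : ℂ)‖ ≤
      1 / ((n : ℝ) + 1) ^ 2 := by
    rw [Complex.norm_real, Real.norm_eq_abs]
    refine (log_ratio_bounds n).trans ?_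
    apply one_div_le_one_div_of_le (by positivity)
    nlinarith
  have h2 : ‖s / (((n : ℂ) + 2) * (s + (n + 2)))‖ ≤ R / ((n : ℝ) + 1) ^ 2 := by
    rw [norm_div, norm_mul, hn2]
    apply div_le_div₀ hR0 hR (by positivity)
    have : ((n : ℝ) + 1) * (n + 1) ≤ (n + 2) * ‖s + ((n : ℂ) + 2)‖ :=
      mul_le_mul (by linarith) hre (by positivity) (by positivity)
    nlinarith
  calc _ ≤ _ := norm_add_le _ _
    _ ≤ 1 / ((n : ℝ) + 1) ^ 2 + R / ((n : ℝ) + 1) ^ 2 := add_le_add h1 h2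
    _ = _ := by ring

lemma gg_zero (n : ℕ) : gg n 0 = 0 := by
  unfold gg
  have : ((0 : ℂ) + ((n : ℂ) + 2)) = ((n + 2 : ℝ) : ℂ) := by push_cast; ring
  rw [this, ← Complex.ofReal_log (by positivity)]
  simp

lemma summable_inv_sq : Summable (fun n : ℕ => 1 / ((n : ℝ) + 1) ^ 2) := by
  have := (summable_nat_add_iff 1).mpr (Real.summable_one_div_nat_pow.mpr (by norm_num : 1 < 2))
  simpa using this

lemma summable_bd (R : ℝ) : Summable (fun n : ℕ => (1 + R) / ((n : ℝ) + 1) ^ 2) := by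
  have := summable_inv_sq.mul_left (1 + R)
  refine this.congr fun n => ?_
  ring

/-- the domain -/
def dom (R : ℝ) : Set ℂ := {s : ℂ | -1 < s.re} ∩ Metric.ball 0 R

lemma dom_open (R : ℝ) : IsOpen (dom R) :=
  (isOpen_lt continuous_const continuous_re).inter Metric.isOpen_ball

lemma dom_conv (R : ℝ) : Convex ℝ (dom R) :=
  (convex_halfSpace_re_gt (-1)).inter (convex_ball 0 R)

lemma summable_gg {s : ℂ} (hs : -1 < s.re) : Summable (fun n => gg n s) := by
  have hR : 0 < ‖s‖ + 1 := by positivity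
  refine summable_of_summable_hasDerivAt_of_isPreconnected (g := gg) (g' := gd)
    (summable_bd (‖s‖ + 1)) (dom_open (‖s‖ + 1)) (dom_conv _).isPreconnected
    (fun n y hy => hasDerivAt_gg n hy.1) (fun n y hy => norm_gd_le n hy.1 ?_)
    (y₀ := 0) ⟨by simp, by simp [hR]⟩ ?_ ⟨hs, by simp⟩
  · have := hy.2
    rw [mem_ball_zero_iff] at this
    exact this.le
  · simp only [gg_zero]
    exact summable_zero

lemma hasDerivAt_tsum_gg {s : ℂ} (hs : -1 < s.re) :
    HasDerivAt (fun z => ∑' n, gg n z) (∑' n, gd n s) s := by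
  have hR : 0 < ‖s‖ + 1 := by positivity
  refine hasDerivAt_tsum_of_isPreconnected (g := gg) (g' := gd)
    (summable_bd (‖s‖ + 1)) (dom_open (‖s‖ + 1)) (dom_conv _).isPreconnected
    (fun n y hy => hasDerivAt_gg n hy.1) (fun n y hy => norm_gd_le n hy.1 ?_)
    (y₀ := 0) ⟨by simp, by simp [hR]⟩ ?_ ⟨hs, by simp⟩
  · have := hy.2
    rw [mem_ball_zero_iff] at this
    exact this.le
  · simp only [gg_zero]
    exact summable_zero

lemma summable_gd {s : ℂ} (hs : -1 < s.re) : Summable (fun n => gd n s) :=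
  Summable.of_norm_bounded (summable_bd ‖s‖) fun n => norm_gd_le n hs le_rfl

/-- log Gamma -/
noncomputable def lG (s : ℂ) : ℂ := -log s - log (s + 1) + ∑' n, gg n s

lemma exp_partial {s : ℂ} (hs : 0 < s.re) (m : ℕ) :
    cexp (-log s - log (s + 1) + ∑ n ∈ Finset.range m, gg n s) = GammaSeq s (m + 1) := by
  have hne : ∀ j : ℕ, s + j ≠ 0 := by
    intro j h
    have := congrArg re h
    simp only [add_re, natCast_re, zero_re] at this
    have hj : (0 : ℝ) ≤ j := Nat.cast_nonneg j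
    linarith
  induction m with
  | zero =>
    simp only [Finset.range_zero, Finset.sum_empty, add_zero, GammaSeq, zero_add]
    rw [show (-log s - log (s + 1)) = -(log s + log (s + 1)) by ring, exp_neg, exp_add, exp_log,
      exp_log]
    · simp [Finset.prod_range_succ]
    · simpa using hne 1
    · simpa using hne 0
  | succ m ih =>
    rw [Finset.sum_range_succ, ← add_assoc, exp_add, ih]
    unfold GammaSeq gg
    have hm1 : ((m : ℂ) + 1) ≠ 0 := by exact_mod_cast Nat.succ_ne_zero m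
    have hm2 : ((m : ℂ) + 2) ≠ 0 := by exact_mod_cast Nat.succ_ne_zero (m + 1)
    have hlog : (Real.log ((m + 2 : ℝ) / (m + 1)) : ℂ) = log ((m : ℂ) + 2) - log ((m : ℂ) + 1) := by
      rw [Real.log_div (by positivity) (by positivity)]
      push_cast
      rw [Complex.ofReal_log (by positivity), Complex.ofReal_log (by positivity)]
      push_cast
      rfl
    have hlog2 : (Real.log (m + 2 : ℝ) : ℂ) = log ((m : ℂ) + 2) := by
      rw [Complex.ofReal_log (by positivity)]
      push_cast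
      rfl
    rw [hlog, hlog2, Finset.prod_range_succ _ (m + 1 + 1), Nat.factorial_succ (m + 1)]
    have h2 : s + ((m : ℂ) + 2) ≠ 0 := by
      have := hne (m + 2)
      push_cast at this
      exact this
    rw [exp_sub, exp_add, exp_log h2, exp_log hm2, mul_sub, exp_sub]
    have c1 : ((m + 1 : ℕ) : ℂ) ^ s = cexp (s * log ((m : ℂ) + 1)) := by
      rw [cpow_def_of_ne_zero (by exact_mod_cast Nat.succ_ne_zero m)]
      push_cast
      ring_nf
    have c2 : ((m + 1 + 1 : ℕ) : ℂ) ^ s = cexp (s * log ((m : ℂ) + 2)) := by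
      rw [cpow_def_of_ne_zero (by exact_mod_cast Nat.succ_ne_zero (m + 1))]
      push_cast
      ring_nf
    rw [c1, c2]
    have hp : ∏ j ∈ Finset.range (m + 1 + 1), (s + (j : ℂ)) ≠ 0 :=
      Finset.prod_ne_zero_iff.mpr fun j _ => hne j
    have he : cexp (s * log ((m : ℂ) + 1)) ≠ 0 := exp_ne_zero _
    have h3 : s + ((m : ℂ) + 1 + 1) ≠ 0 := by
      have := hne (m + 2)
      push_cast at this
      intro h
      apply this
      rw [← h]
      ring
    have h4 : s + ((m : ℂ) + 2) = s + ((m : ℂ) + 1 + 1) := by ring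
    rw [h4]
    push_cast
    field_simp
    ring

lemma exp_lG {s : ℂ} (hs : 0 < s.re) : cexp (lG s) = Gamma s := by
  have h1 : Tendsto (fun m : ℕ => cexp (-log s - log (s + 1) + ∑ n ∈ Finset.range m, gg n s))
      atTop (𝓝 (cexp (lG s))) := by
    refine (continuous_exp.tendsto _).comp ?_
    exact tendsto_const_nhds.add (summable_gg (by linarith)).hasSum.tendsto_sum_nat
  have h2 : Tendsto (fun m : ℕ => GammaSeq s (m + 1)) atTop (𝓝 (Gamma s)) :=
    (GammaSeq_tendsto_Gamma s).comp (tendsto_add_atTop_nat 1)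
  refine tendsto_nhds_unique (h1.congr fun m => exp_partial hs m) h2

lemma hasDerivAt_lG {s : ℂ} (hs : 0 < s.re) :
    HasDerivAt lG (-(1 / s) - 1 / (s + 1) + ∑' n, gd n s) s := by
  have h0 : HasDerivAt (fun z : ℂ => log z) (1 / s) s :=
    HasDerivAt.clog (hasDerivAt_id s) (Or.inl hs)
  have h1 : HasDerivAt (fun z : ℂ => log (z + 1)) (1 / (s + 1)) s :=
    HasDerivAt.clog ((hasDerivAt_id s).add_const _) (Or.inl (by simp; linarith))
  exact ((h0.neg).sub h1).add (hasDerivAt_tsum_gg (by linarith))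

lemma logDeriv_Gamma {s : ℂ} (hs : 0 < s.re) :
    logDeriv Gamma s = -(1 / s) - 1 / (s + 1) + ∑' n, gd n s := by
  have h1 : HasDerivAt (fun z => cexp (lG z)) (cexp (lG s) * (-(1 / s) - 1 / (s + 1) + ∑' n, gd n s)) s :=
    (hasDerivAt_lG hs).cexp
  have h2 : Gamma =ᶠ[𝓝 s] fun z => cexp (lG z) := by
    have : {z : ℂ | 0 < z.re} ∈ 𝓝 s := (isOpen_lt continuous_const continuous_re).mem_nhds hs
    filter_upwards [this] with z hz
    exact (exp_lG hz).symm
  rw [logDeriv_apply, h2.deriv_eq, h1.deriv, ← exp_lG hs, mul_div_cancel_left₀ _ (exp_ne_zero _)]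

lemma log_step {z : ℂ} (hz : 2 ≤ z.re) : ‖log (z + 1) - log z - 1 / z‖ ≤ 1 / ‖z‖ ^ 2 := by
  have hn : 2 ≤ ‖z‖ := hz.trans (re_le_norm z)
  have hz0 : z ≠ 0 := by
    intro h
    rw [h] at hn
    simp at hn
    linarith
  have hw : ‖1 / z‖ ≤ 1 / 2 := by
    rw [norm_div, norm_one]
    exact one_div_le_one_div_of_le (by norm_num) hn
  have hre : 0 < (1 + 1 / z).re := by
    have : -‖1 / z‖ ≤ (1 / z).re := by
      have := abs_re_le_norm (1 / z)
      rw [abs_le] at this
      exact this.1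
    rw [add_re, one_re]
    linarith
  have hmul : z + 1 = z * (1 + 1 / z) := by
    field_simp
  have hlog : log (z + 1) = log z + log (1 + 1 / z) := by
    rw [hmul]
    apply log_mul hz0 (by intro h; rw [h] at hre; simp at hre)
    have a1 := abs_arg_lt_pi_div_two_iff.mpr (Or.inl (show 0 < z.re by linarith))
    have a2 := abs_arg_lt_pi_div_two_iff.mpr (Or.inl hre)
    rw [abs_lt] at a1 a2
    constructor <;> linarith [a1.1, a1.2, a2.1, a2.2]
  rw [hlog, add_sub_cancel_left]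
  refine (norm_log_one_add_sub_self_le (by linarith)).trans ?_
  have h1 : (1 - ‖1 / z‖)⁻¹ ≤ 2 := by
    rw [inv_le_comm₀ (by linarith) (by norm_num)]
    linarith
  have h2 : ‖1 / z‖ ^ 2 = 1 / ‖z‖ ^ 2 := by
    rw [norm_div, norm_one, div_pow, one_pow]
  rw [h2]
  have h3 : 0 ≤ 1 / ‖z‖ ^ 2 := by positivity
  nlinarith

/-- error terms -/
noncomputable def er (n : ℕ) (s : ℂ) : ℂ :=
  log (s + (n + 3)) - log (s + (n + 2)) - 1 / (s + (n + 2))

lemma norm_er_le (n : ℕ) {s : ℂ} (hs : 0 < s.re) : ‖er n s‖ ≤ 1 / ((n : ℝ) + 1) ^ 2 := by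
  have hn : (0 : ℝ) ≤ n := Nat.cast_nonneg n
  have hre : (n : ℝ) + 2 ≤ (s + ((n : ℂ) + 2)).re := by
    simp only [add_re, natCast_re, re_ofNat]
    linarith
  have h1 := log_step (z := s + ((n : ℂ) + 2)) (by linarith)
  have h2 : s + ((n : ℂ) + 2) + 1 = s + (n + 3) := by ring
  rw [h2] at h1
  refine h1.trans ?_
  apply one_div_le_one_div_of_le (by positivity)
  have := re_le_norm (s + ((n : ℂ) + 2))
  apply pow_le_pow_left₀ (by positivity)
  linarith

lemma summable_er {s : ℂ} (hs : 0 < s.re) : Summable (fun n => er n s) :=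
  Summable.of_norm_bounded summable_inv_sq fun n => norm_er_le n hs

lemma partial_gd {s : ℂ} (m : ℕ) :
    ∑ n ∈ Finset.range m, gd n s =
      (Real.log (m + 1 : ℝ) : ℂ) - log (s + (m + 2)) + log (s + 2) + ∑ n ∈ Finset.range m, er n s := by
  induction m with
  | zero => simp
  | succ m ih =>
    rw [Finset.sum_range_succ, ih, Finset.sum_range_succ]
    unfold gd er
    rw [Real.log_div (by positivity) (by positivity)]
    push_cast
    rw [show s + ((m : ℂ) + 1 + 2) = s + (m + 3) by ring,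
      show (m : ℝ) + 1 + 1 = m + 2 by ring]
    ring

lemma tendsto_log_diff (s : ℂ) (hs : 0 < s.re) :
    Tendsto (fun m : ℕ => (Real.log (m + 1 : ℝ) : ℂ) - log (s + (m + 2))) atTop (𝓝 0) := by
  have h1 : ∀ m : ℕ, (Real.log (m + 1 : ℝ) : ℂ) - log (s + (m + 2)) =
      - log (1 + (s + 1) / (m + 1)) := by
    intro m
    have hm : (0 : ℝ) < m + 1 := by positivity
    have hm' : ((m : ℂ) + 1) ≠ 0 := by exact_mod_cast Nat.succ_ne_zero m
    have e : s + ((m : ℂ) + 2) = ((m + 1 : ℝ) : ℂ) * (1 + (s + 1) / (m + 1)) := by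
      push_cast
      field_simp
      ring
    have hne : 1 + (s + 1) / ((m : ℂ) + 1) ≠ 0 := by
      intro h
      rw [h, mul_zero] at e
      have := congrArg re e
      simp only [add_re, natCast_re, re_ofNat, zero_re] at this
      linarith
    rw [e, log_ofReal_mul hm hne]
    ring
  simp_rw [h1]
  have h2 : Tendsto (fun m : ℕ => 1 + (s + 1) / ((m : ℂ) + 1)) atTop (𝓝 (1 + 0)) := by
    refine tendsto_const_nhds.add ?_
    rw [tendsto_zero_iff_norm_tendsto_zero]
    have : ∀ m : ℕ, ‖(s + 1) / ((m : ℂ) + 1)‖ = ‖s + 1‖ * (1 / ((m : ℝ) + 1)) := by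
      intro m
      rw [norm_div]
      have : ((m : ℂ) + 1) = ((m + 1 : ℝ) : ℂ) := by push_cast; ring
      rw [this, Complex.norm_real, Real.norm_eq_abs, abs_of_nonneg (by positivity)]
      ring
    simp_rw [this]
    simpa using (tendsto_one_div_add_atTop_nhds_zero_nat (𝕜 := ℝ)).const_mul ‖s + 1‖
  rw [add_zero] at h2
  have h3 := ((continuousAt_clog (x := 1) one_mem_slitPlane).tendsto.comp h2).neg
  simpa using h3

lemma tsum_gd {s : ℂ} (hs : 0 < s.re) : ∑' n, gd n s = log (s + 2) + ∑' n, er n s := by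
  have h1 := (summable_gd (s := s) (by linarith)).hasSum.tendsto_sum_nat
  have h2 := (summable_er hs).hasSum.tendsto_sum_nat
  have h3 := ((tendsto_log_diff s hs).add_const (log (s + 2))).add h2
  rw [zero_add] at h3
  refine tendsto_nhds_unique h1 (h3.congr fun m => ?_)
  rw [partial_gd m]

/-- Euler type formula for the digamma function -/
lemma logDeriv_Gamma' {s : ℂ} (hs : 0 < s.re) :
    logDeriv Gamma s = log (s + 2) - 1 / s - 1 / (s + 1) + ∑' n, er n s := by
  rw [logDeriv_Gamma hs, tsum_gd hs]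
  ring

lemma norm_tsum_er {s : ℂ} (hs : 0 < s.re) : ‖∑' n, er n s‖ ≤ ∑' n : ℕ, 1 / ((n : ℝ) + 1) ^ 2 :=
  tsum_of_norm_bounded summable_inv_sq.hasSum fun n => norm_er_le n hs

end H370.DG

namespace H370

open DG

theorem digamma_bound : ∃ C : ℝ, ∀ s : ℂ, 1 / 4 ≤ s.re → s.re ≤ 4 → 1 / 2 ≤ |s.im| →
    ‖logDeriv Gamma s - Real.log |s.im|‖ ≤ C := by
  refine ⟨Real.log 13 + Real.pi + 2 + 2 + ∑' n : ℕ, 1 / ((n : ℝ) + 1) ^ 2, ?_⟩
  intro s h1 h2 h3
  have hs : 0 < s.re := by linarith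
  have hn1 : 1 / 2 ≤ ‖s‖ := h3.trans (abs_im_le_norm s)
  have hn2 : 1 / 2 ≤ ‖s + 1‖ := by
    refine le_trans ?_ (abs_im_le_norm (s + 1))
    simpa using h3
  have hn3 : |s.im| ≤ ‖s + 2‖ := by
    refine le_trans ?_ (abs_im_le_norm (s + 2))
    simp
  have hn4 : ‖s + 2‖ ≤ 6 + |s.im| := by
    refine (norm_le_abs_re_add_abs_im (s + 2)).trans ?_
    simp only [add_re, re_ofNat, add_im, im_ofNat, add_zero]
    rw [abs_of_nonneg (by linarith)]
    linarith
  have hpos : 0 < |s.im| := by linarith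
  have b1 : ‖1 / s‖ ≤ 2 := by
    rw [norm_div, norm_one, div_le_iff₀ (by linarith)]
    linarith
  have b2 : ‖1 / (s + 1)‖ ≤ 2 := by
    rw [norm_div, norm_one, div_le_iff₀ (by linarith)]
    linarith
  have b3 : ‖log (s + 2) - Real.log |s.im|‖ ≤ Real.log 13 + Real.pi := by
    have e : log (s + 2) - Real.log |s.im| =
        ((Real.log (‖s + 2‖ / |s.im|) : ℝ) : ℂ) + (arg (s + 2) : ℂ) * I := by
      rw [Real.log_div (by linarith) hpos.ne']
      rw [log]
      push_cast
      ring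
    rw [e]
    refine (norm_add_le _ _).trans (add_le_add ?_ ?_)
    · rw [Complex.norm_real, Real.norm_eq_abs, abs_of_nonneg]
      · apply Real.log_le_log (div_pos (by linarith) hpos)
        rw [div_le_iff₀ hpos]
        linarith
      · apply Real.log_nonneg
        rw [le_div_iff₀ hpos]
        linarith
    · rw [norm_mul, norm_I, mul_one, Complex.norm_real, Real.norm_eq_abs]
      exact abs_arg_le_pi _
  have e : logDeriv Gamma s - Real.log |s.im| =
      (log (s + 2) - Real.log |s.im|) - 1 / s - 1 / (s + 1) + ∑' n, er n s := by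
    rw [logDeriv_Gamma' hs]
    ring
  rw [e]
  calc _ ≤ ‖(log (s + 2) - Real.log |s.im|) - 1 / s - 1 / (s + 1)‖ + ‖∑' n, er n s‖ :=
        norm_add_le _ _
    _ ≤ (‖(log (s + 2) - Real.log |s.im|) - 1 / s‖ + ‖1 / (s + 1)‖) + ‖∑' n, er n s‖ := by
        gcongr
        exact norm_sub_le _ _
    _ ≤ ((‖(log (s + 2) - Real.log |s.im|)‖ + ‖1 / s‖) + ‖1 / (s + 1)‖) + ‖∑' n, er n s‖ := by
        gcongr
        exact norm_sub_le _ _
    _ ≤ ((Real.log 13 + Real.pi + 2) + 2) + ∑' n : ℕ, 1 / ((n : ℝ) + 1) ^ 2 := by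
        gcongr
        exact norm_tsum_er hs
    _ = _ := by ring

end H370
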